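import Mathlib
import Pool.Agent.Helper647.GR.Main
import Pool.Agent.Helper647.GR.CHSide

set_option autoImplicit false

open Set Filter Topology Cardinal
open Pool.Agent.Helper647.FU (MartinAxiom MA1_of_MA)
open Pool.Agent.Helper647.GR
open Pool.Agent.Helper647.GR.ForceCH (OmegaOnePreserved CHHolds)

/-- The two questions are independent of the axioms of set theory: the continuum hypothesis, which
can be forced, gives one counterexample to both, and Martin's axiom with the negation of the
continuum hypothesis gives a positive answer to both. -/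
theorem Pool.Agent.Results.MP_5106fb_gt.BothSides.result :
    (∃ (P : Type) (_ : Preorder P), Nonempty P ∧
      ∀ p : P, p ∈ OmegaOnePreserved P ∧ p ∈ CHHolds P) ∧
    ((ℵ₁ : Cardinal.{0}) = 𝔠 →
      ∃ (X : Type) (_ : TopologicalSpace X), T35Space X ∧ FirstCountableTopology X ∧ KSpace X ∧
        CountablyTight X ∧ (∀ n : ℕ, LindelofSpace (Fin n → X)) ∧ ¬ Grothendieck X) ∧
    (MartinAxiom → (ℵ₁ : Cardinal.{0}) < 𝔠 →
      ∀ (X : Type) [TopologicalSpace X] [T35Space X], (∀ n : ℕ, LindelofSpace (Fin n → X)) →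
        (KSpace X ∨ CountablyTight X) → Grothendieck X) := by
  refine ⟨?_, CHSide.counterexample, fun hMA hc X _ _ hL h =>
    grothendieck (MA1_of_MA hMA hc) hL h⟩
  obtain ⟨P, hP, hne, h⟩ := Pool.Agent.Helper647.GR.ForceCH.exists_forcing
  exact ⟨P, hP, hne, fun p => ⟨(h p).1, (h p).2.2⟩⟩
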