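import Mathlib
import Pool.Agent.Helper292.ForceCH

/-!
# MP_5106fb_gt: the continuum hypothesis gives a first countable space with all finite powers
Lindelöf which is not Grothendieck

The points of the space are the finite subsets of `ℕ` and the members of a maximal almost disjoint
family, whose members are isolated; a finite set `s` has as neighbourhoods the sets of the points
which agree with `s` below `k`. The maximal almost disjoint family is built in `ω₁` steps so that
for every `g : ℕ → ℕ` all but countably many of its members are sparse with respect to `g`.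
-/

set_option autoImplicit false

open Set Filter Topology Cardinal
open Pool.Agent.Helper292.ForceCH (Om countable_Iio OmegaOnePreserved CHHolds)

namespace Pool.Agent.Results.MP_5106fb_gt.CH

/-! ### The definitions of the problem -/

/-- `A` is countably compact in `Z`: every infinite `B ⊆ A` has an accumulation point in `Z`. -/
def CountablyCompactIn {Z : Type} [TopologicalSpace Z] (A : Set Z) : Prop :=
  ∀ B ⊆ A, B.Infinite → ∃ y : Z, AccPt y (𝓟 B)

/-- `Z` is a g-space: the closure of every set countably compact in `Z` is compact. -/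
def GSpace (Z : Type) [TopologicalSpace Z] : Prop :=
  ∀ A : Set Z, CountablyCompactIn A → IsCompact (closure A)

/-- `C_p(X)`: the continuous real functions on `X`, with the topology of pointwise convergence
(the subspace topology of the product `X → ℝ`). -/
abbrev Cp (X : Type) [TopologicalSpace X] : Type := {f : X → ℝ // Continuous f}

/-- `X` is Grothendieck: every subspace of `C_p(X)` is a g-space. -/
def Grothendieck (X : Type) [TopologicalSpace X] : Prop := ∀ Z : Set (Cp X), GSpace Z

/-- `X` is a k-space: a set whose trace on every compact set is closed is closed. -/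
def KSpace (X : Type) [TopologicalSpace X] : Prop :=
  ∀ F : Set X, (∀ K : Set X, IsCompact K → IsClosed (K ∩ F)) → IsClosed F

/-- `X` has countable tightness. -/
def CountablyTight (X : Type) [TopologicalSpace X] : Prop :=
  ∀ (A : Set X) (x : X), x ∈ closure A → ∃ B ⊆ A, B.Countable ∧ x ∈ closure B


/-! ### Combinatorics -/

theorem exists_rec {I : Type} [LinearOrder I] [WellFoundedLT I] {T : Type}
    (R : (a : I) → ((b : I) → b < a → T) → T → Prop) (h : ∀ a f, ∃ t, R a f t) :
    ∃ D : I → T, ∀ a, R a (fun b _ => D b) (D a) := by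
  classical
  let F : (a : I) → ((b : I) → b < a → T) → T := fun a f => Classical.choose (h a f)
  have hF : ∀ a f, R a f (F a f) := fun a f => Classical.choose_spec (h a f)
  let wf : WellFounded (fun x y : I => x < y) := wellFounded_lt
  refine ⟨wf.fix F, fun a => ?_⟩
  have h1 := hF a (fun b _ => wf.fix F b)
  have h2 : wf.fix F a = F a (fun b _ => wf.fix F b) := wf.fix_eq F a
  rw [h2]
  exact h1

/-- `D` is sparse with respect to `G`: from some point on, the successor in `D` of a member `a`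
of `D` is larger than `G a`. -/
def Sparse (G : ℕ → ℕ) (D : Set ℕ) : Prop :=
  ∃ N, ∀ a ∈ D, N ≤ a → ∀ b ∈ D, a < b → G a < b

theorem Sparse.of_finite (G : ℕ → ℕ) {D : Set ℕ} (hD : D.Finite) : Sparse G D := by
  obtain ⟨N, hN⟩ := hD.bddAbove
  exact ⟨N, fun a ha hNa b hb hab => absurd (hN hb) (by omega)⟩

theorem exists_sparse (Y : Set ℕ) (hY : Y.Infinite) (G : ℕ → ℕ → ℕ) :
    ∃ D ⊆ Y, D.Infinite ∧ ∀ i, Sparse (G i) D := by
  have hgt : ∀ n, ∃ b ∈ Y, n < b := fun n => hY.exists_gt n
  choose s hsY hs using hgt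
  let next : ℕ → ℕ → ℕ := fun k n => s (max n ((Finset.range (k + 1)).sup fun i => G i n))
  let d : ℕ → ℕ := fun k => Nat.rec (s 0) (fun k n => next k n) k
  have hd1 : ∀ k, d (k + 1) = next k (d k) := fun k => rfl
  have hdY : ∀ k, d k ∈ Y := by
    intro k
    cases k with
    | zero => exact hsY 0
    | succ k => rw [hd1]; exact hsY _
  have hlt : ∀ k, d k < d (k + 1) := by
    intro k
    rw [hd1]
    exact lt_of_le_of_lt (le_max_left _ _) (hs _)
  have hmono : StrictMono d := strictMono_nat_of_lt_succ hlt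
  have hG : ∀ k i, i ≤ k → G i (d k) < d (k + 1) := by
    intro k i hik
    rw [hd1]
    refine lt_of_le_of_lt ?_ (hs _)
    refine le_trans ?_ (le_max_right _ _)
    exact Finset.le_sup (f := fun i => G i (d k)) (Finset.mem_range.2 (by omega))
  refine ⟨range d, ?_, infinite_range_of_injective hmono.injective, ?_⟩
  · rintro _ ⟨k, rfl⟩; exact hdY k
  · intro i
    refine ⟨d i, ?_⟩
    rintro _ ⟨k, rfl⟩ hk _ ⟨l, rfl⟩ hkl
    have h1 : i ≤ k := hmono.le_iff_le.1 hk
    have h2 : k < l := hmono.lt_iff_lt.1 hkl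
    exact lt_of_lt_of_le (hG k i h1) (hmono.monotone h2)

theorem exists_sparse' (Y : Set ℕ) (hY : Y.Infinite) {κ : Type} [Countable κ] (G : κ → ℕ → ℕ) :
    ∃ D ⊆ Y, D.Infinite ∧ (Y \ D).Infinite ∧ ∀ i, Sparse (G i) D := by
  have hgt : ∀ n, ∃ b ∈ Y, n < b := fun n => hY.exists_gt n
  choose s hsY hs using hgt
  obtain ⟨f, hf⟩ : ∃ f : ℕ → ℕ → ℕ, (∀ i, ∃ n, f n = G i) ∧ ∃ n, f n = s := by
    have hc : (insert s (range G)).Countable := (countable_range G).insert s
    obtain ⟨f, hf⟩ := hc.exists_eq_range ⟨s, mem_insert _ _⟩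
    refine ⟨f, fun i => ?_, ?_⟩
    · have : G i ∈ insert s (range G) := mem_insert_of_mem _ ⟨i, rfl⟩
      rw [hf] at this; exact this
    · have : s ∈ insert s (range G) := mem_insert _ _
      rw [hf] at this; exact this
  obtain ⟨D, hDY, hD, hS⟩ := exists_sparse Y hY f
  refine ⟨D, hDY, hD, ?_, fun i => ?_⟩
  · obtain ⟨n, hn⟩ := hf.2
    obtain ⟨N, hN⟩ := hS n
    rw [hn] at hN
    refine Set.infinite_of_not_bddAbove ?_
    rintro ⟨M, hM⟩
    obtain ⟨a, haD, ha⟩ := hD.exists_gt (max M N)
    have h1 : s a ∈ Y \ D := by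
      refine ⟨hsY a, fun h => ?_⟩
      exact absurd (hN a haD (le_of_lt (lt_of_le_of_lt (le_max_right _ _) ha)) (s a) h (hs a))
        (lt_irrefl _)
    have h2 := hM h1
    have h3 := hs a
    have h4 := lt_of_le_of_lt (le_max_left M N) ha
    omega
  · obtain ⟨n, hn⟩ := hf.1 i
    rw [← hn]
    exact hS n

/-- Common gaps. -/
theorem exists_gap (n : ℕ) (g : ℕ → ℕ) : ∃ G : ℕ → ℕ, ∀ B : Fin n → Set ℕ,
    (∀ j, Sparse G (B j)) → ∃ m, ∀ j, ∀ b ∈ B j, m ≤ b → g m ≤ b := by
  let φ : ℕ → ℕ := fun m => (Finset.range (m + 1)).sup g + m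
  have hφmono : Monotone φ := by
    intro a b hab
    have : (Finset.range (a + 1)).sup g ≤ (Finset.range (b + 1)).sup g :=
      Finset.sup_mono (Finset.range_mono (by omega))
    simp only [φ]; omega
  have hφg : ∀ m, g m ≤ φ m := fun m => by
    have : g m ≤ (Finset.range (m + 1)).sup g := Finset.le_sup (Finset.mem_range.2 (by omega))
    simp only [φ]; omega
  have hφid : ∀ m, m ≤ φ m := fun m => by simp only [φ]; omega
  refine ⟨φ^[n + 1], fun B hB => ?_⟩
  choose N hN using hB
  let m0 := Finset.univ.sup N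
  have hm0 : ∀ j, N j ≤ m0 := fun j => Finset.le_sup (Finset.mem_univ j)
  let a : ℕ → ℕ := fun k => φ^[k] m0
  have ha1 : ∀ k, a (k + 1) = φ (a k) := fun k => Function.iterate_succ_apply' φ k m0
  have hamono : Monotone a := monotone_nat_of_le_succ (fun k => by rw [ha1]; exact hφid _)
  by_contra hcon
  push Not at hcon
  choose jj b hb h1 h2 using hcon
  obtain ⟨k, l, hkl, hjj⟩ : ∃ k l : Fin (n + 1), k < l ∧ jj (a k) = jj (a l) := by
    obtain ⟨k, l, hne, heq⟩ := Fintype.exists_ne_map_eq_of_card_lt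
      (fun k : Fin (n + 1) => jj (a k)) (by simp)
    rcases lt_or_gt_of_ne hne with h | h
    · exact ⟨k, l, h, heq⟩
    · exact ⟨l, k, h, heq.symm⟩
  have hb1 := hb (a k)
  have hb2 := hb (a l)
  rw [← hjj] at hb2
  have e1 : b (a k) < b (a l) := by
    calc b (a k) < g (a k) := h2 _
      _ ≤ φ (a k) := hφg _
      _ = a (k + 1) := (ha1 k).symm
      _ ≤ a l := hamono (by exact hkl)
      _ ≤ b (a l) := h1 _
  have e2 : m0 ≤ b (a k) := le_trans (hamono (Nat.zero_le k)) (h1 _)
  have e3 := hN _ _ hb1 (le_trans (hm0 _) e2) _ hb2 e1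
  have e4 : b (a l) < a (l + 1) := by
    calc b (a l) < g (a l) := h2 _
      _ ≤ φ (a l) := hφg _
      _ = a (l + 1) := (ha1 l).symm
  have e5 : a (l + 1) ≤ a (n + 1) := hamono (by omega)
  have e6 : a (n + 1) ≤ φ^[n + 1] (b (a k)) := hφmono.iterate (n + 1) e2
  omega

theorem countable_Iic (a : Om) : Countable {b : Om // b ≤ a} := by
  have := countable_Iio a
  have h : {b : Om | b ≤ a} ⊆ insert a {b : Om | b < a} := by
    intro b hb
    rcases lt_or_eq_of_le (show b ≤ a from hb) with h | h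
    · exact mem_insert_of_mem _ h
    · exact h ▸ mem_insert _ _
  exact Set.countable_coe_iff.2 (Set.Countable.mono h
    (Set.Countable.insert _ (Set.countable_coe_iff.1 this)))

/-- The almost disjoint family. -/
theorem exists_family (hCH : (ℵ₁ : Cardinal.{0}) = 𝔠) :
    ∃ (ι : Type) (D : ι → Set ℕ), Infinite ι ∧ (∀ i, (D i).Infinite) ∧
      (∀ i j, i ≠ j → (D i ∩ D j).Finite) ∧
      (∀ Y : Set ℕ, Y.Infinite → ∃ i, (Y ∩ D i).Infinite) ∧
      ∀ g : ℕ → ℕ, {i | ¬ Sparse g (D i)}.Countable := by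
  have hcard : #((ℕ → ℕ) × Set ℕ) ≤ #Om := by
    have h1 : #Om = ℵ₁ := by simp [Om]
    rw [h1, hCH]
    simp
  obtain ⟨e, he⟩ : ∃ e : Om → (ℕ → ℕ) × Set ℕ, Function.Surjective e := by
    obtain ⟨f⟩ := Cardinal.le_def _ _ |>.1 hcard
    exact ⟨_, Function.invFun_surjective f.injective⟩
  obtain ⟨D, hD⟩ := exists_rec (I := Om) (T := Set ℕ)
    (fun a f t =>
      (t.Infinite → t ⊆ (e a).2 ∧ ((e a).2 \ t).Infinite ∧ (∀ b (h : b < a), ((e a).2 ∩ f b h).Finite) ∧
        ∀ b, b ≤ a → Sparse (e b).1 t) ∧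
      ((e a).2.Infinite → (∀ b (h : b < a), ((e a).2 ∩ f b h).Finite) → t.Infinite)) (by
    intro a f
    by_cases h : (e a).2.Infinite ∧ (∀ b (h : b < a), ((e a).2 ∩ f b h).Finite)
    · have := countable_Iic a
      obtain ⟨t, ht, hti, ht2, ht3⟩ := exists_sparse' (e a).2 h.1
        (fun b : {b : Om // b ≤ a} => (e b.1).1)
      refine ⟨t, fun _ => ⟨ht, ht2, h.2,
        fun b hb => ht3 ⟨b, hb⟩⟩, fun _ _ => hti⟩
    · refine ⟨∅, fun h' => absurd finite_empty h', fun h1 h2 => absurd ⟨h1, h2⟩ h⟩)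
  have hMAD : ∀ Y : Set ℕ, Y.Infinite → ∃ a, (D a).Infinite ∧ (Y ∩ D a).Infinite := by
    intro Y hY
    obtain ⟨a, ha⟩ := he (fun _ => 0, Y)
    have ha2 : (e a).2 = Y := by rw [ha]
    by_contra hcon
    push Not at hcon
    have h1 : ∀ b, (Y ∩ D b).Finite := by
      intro b
      by_cases hb : (D b).Infinite
      · exact not_infinite.1 (by simpa using hcon b hb)
      · exact (not_infinite.1 hb).subset inter_subset_right
    have h2 := (hD a).2 (by rw [ha2]; exact hY) (fun b _ => by rw [ha2]; exact h1 b)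
    have h3 := ((hD a).1 h2).1
    rw [ha2] at h3
    have h4 := h1 a
    rw [inter_eq_self_of_subset_right h3] at h4
    exact h2 h4
  have hAD : ∀ a b, a ≠ b → (D a).Infinite → (D b).Infinite → (D a ∩ D b).Finite := by
    intro a b hab ha hb
    rcases lt_or_gt_of_ne hab with h | h
    · rw [inter_comm]
      exact (((hD b).1 hb).2.2.1 a h).subset (inter_subset_inter_left _ ((hD b).1 hb).1)
    · exact (((hD a).1 ha).2.2.1 b h).subset (inter_subset_inter_left _ ((hD a).1 ha).1)
  refine ⟨{a : Om // (D a).Infinite}, fun a => D a.1, ?_, fun i => i.2, ?_, ?_, ?_⟩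
  · by_contra hfin
    rw [not_infinite_iff_finite] at hfin
    obtain ⟨a0, ha0, _⟩ := hMAD univ infinite_univ
    have hne : Nonempty {a : Om // (D a).Infinite} := ⟨⟨a0, ha0⟩⟩
    obtain ⟨m, hm⟩ := Finite.exists_max (fun a : {a : Om // (D a).Infinite} => a.1)
    have h1 := (hD m.1).1 m.2
    obtain ⟨b, hb1, hb2⟩ := hMAD _ h1.2.1
    have hbm : b ≤ m.1 := hm ⟨b, hb1⟩
    rcases lt_or_eq_of_le hbm with h | h
    · exact hb2 ((h1.2.2.1 b h).subset (inter_subset_inter_left _ sdiff_subset))
    · subst h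
      refine hb2 (finite_empty.subset ?_)
      rintro x ⟨hx1, hx2⟩
      exact absurd hx2 hx1.2
  · intro i j hij
    exact hAD i.1 j.1 (fun h => hij (Subtype.ext h)) i.2 j.2
  · intro Y hY
    obtain ⟨a, ha, ha2⟩ := hMAD Y hY
    exact ⟨⟨a, ha⟩, ha2⟩
  · intro g
    obtain ⟨a, ha⟩ := he (g, ∅)
    have ha1 : (e a).1 = g := by rw [ha]
    have hc : ({b : Om | b < a}).Countable := Set.countable_coe_iff.1 (countable_Iio a)
    refine (hc.preimage (f := fun i : {a : Om // (D a).Infinite} => i.1)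
      Subtype.val_injective).mono ?_
    intro i hi
    simp only [mem_ofPred_eq] at hi
    by_contra h
    simp only [mem_preimage, mem_ofPred_eq, not_lt] at h
    exact hi (ha1 ▸ ((hD i.1).1 i.2).2.2.2 a h)

/-! ### The space -/

/-- The points: the finite subsets of `ℕ` and the indices of the family `D`. -/
def Sp {ι : Type} (_D : ι → Set ℕ) : Type := Finset ℕ ⊕ ι

variable {ι : Type} {D : ι → Set ℕ}

/-- The subset of `ℕ` coded by a point. -/
def cc (x : Sp D) : Set ℕ := Sum.elim (fun s : Finset ℕ => (s : Set ℕ)) D x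

/-- a point coming from a finite set -/
def fin (D : ι → Set ℕ) (s : Finset ℕ) : Sp D := Sum.inl s

/-- a point coming from a member of the family -/
def mem (D : ι → Set ℕ) (i : ι) : Sp D := Sum.inr i

theorem cc_fin (s : Finset ℕ) : cc (fin D s) = s := rfl

theorem cc_mem (i : ι) : cc (mem D i) = D i := rfl

theorem fin_ne_mem (s : Finset ℕ) (i : ι) : fin D s ≠ mem D i := Sum.inl_ne_inr

theorem fin_inj {s t : Finset ℕ} (h : fin D s = fin D t) : s = t := Sum.inl_injective h

theorem mem_inj {s t : ι} (h : mem D s = mem D t) : s = t := Sum.inr_injective h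

theorem sp_cases (x : Sp D) : (∃ s, x = fin D s) ∨ ∃ i, x = mem D i := by
  rcases x with s | i
  · exact Or.inl ⟨s, rfl⟩
  · exact Or.inr ⟨i, rfl⟩

/-- `x` and the finite set `s` agree below `k`. -/
def Agree (k : ℕ) (s : Finset ℕ) (x : Sp D) : Prop := ∀ n < k, n ∈ cc x ↔ n ∈ s

theorem Agree.mono {k l : ℕ} {s : Finset ℕ} {x : Sp D} (h : Agree k s x) (hl : l ≤ k) :
    Agree l s x := fun n hn => h n (hn.trans_le hl)

instance : TopologicalSpace (Sp D) where
  IsOpen U := ∀ s, fin D s ∈ U → ∃ k, ∀ x, Agree k s x → x ∈ U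
  isOpen_univ := fun _ _ => ⟨0, fun _ _ => trivial⟩
  isOpen_inter := fun U V hU hV s hs => by
    obtain ⟨k, hk⟩ := hU s hs.1
    obtain ⟨l, hl⟩ := hV s hs.2
    exact ⟨max k l, fun x hx => ⟨hk x (hx.mono (le_max_left _ _)),
      hl x (hx.mono (le_max_right _ _))⟩⟩
  isOpen_sUnion := fun S hS s hs => by
    obtain ⟨U, hU, hsU⟩ := hs
    obtain ⟨k, hk⟩ := hS U hU s hsU
    exact ⟨k, fun x hx => ⟨U, hU, hk x hx⟩⟩

theorem isOpen_iff (U : Set (Sp D)) :
    IsOpen U ↔ ∀ s, fin D s ∈ U → ∃ k, ∀ x, Agree k s x → x ∈ U := Iff.rfl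

theorem agree_self (k : ℕ) (s : Finset ℕ) : Agree k s (fin D s) := fun n _ => by
  rw [cc_fin]; exact Iff.rfl

theorem isOpen_agree (k : ℕ) (s : Finset ℕ) : IsOpen {x : Sp D | Agree k s x} := by
  intro t ht
  refine ⟨k, fun x hx n hn => (hx n hn).trans ?_⟩
  have := ht n hn
  rw [cc_fin] at this
  exact this

theorem isClosed_agree (k : ℕ) (s : Finset ℕ) : IsClosed {x : Sp D | Agree k s x} := by
  rw [← isOpen_compl_iff]
  intro t ht
  refine ⟨k, fun x hx h => ht fun n hn => ?_⟩
  rw [cc_fin]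
  exact (hx n hn).symm.trans (h n hn)

theorem isOpen_mem (i : ι) : IsOpen {mem D i} := by
  intro t ht
  exact absurd ht (fin_ne_mem t i)

theorem isClosed_mem (hD : ∀ i, (D i).Infinite) (i : ι) : IsClosed {mem D i} := by
  rw [← isOpen_compl_iff]
  intro t _
  obtain ⟨n, hn, hnt⟩ := (hD i).exists_notMem_finset t
  refine ⟨n + 1, fun x hx hx' => ?_⟩
  rw [mem_singleton_iff] at hx'
  subst hx'
  exact hnt ((hx n (by omega)).1 hn)

theorem isClosed_fin (s : Finset ℕ) : IsClosed {fin D s} := by
  rw [← isOpen_compl_iff]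
  intro t ht
  have hne : ∃ n, ¬ (n ∈ s ↔ n ∈ t) := by
    by_contra h
    push Not at h
    exact ht (by rw [mem_singleton_iff, Finset.ext h])
  obtain ⟨n, hn⟩ := hne
  refine ⟨n + 1, fun x hx hx' => hn ?_⟩
  rw [mem_singleton_iff] at hx'
  subst hx'
  exact hx n (by omega)

theorem nhds_fin (s : Finset ℕ) :
    (𝓝 (fin D s)).HasBasis (fun _ : ℕ => True) fun k => {x | Agree k s x} := by
  refine ⟨fun U => ⟨fun hU => ?_, ?_⟩⟩
  · obtain ⟨V, hVU, hV, hs⟩ := mem_nhds_iff.1 hU
    obtain ⟨k, hk⟩ := hV s hs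
    exact ⟨k, trivial, fun x hx => hVU (hk x hx)⟩
  · rintro ⟨k, -, hk⟩
    exact mem_of_superset ((isOpen_agree k s).mem_nhds (agree_self k s)) hk

theorem t35 (hD : ∀ i, (D i).Infinite) : T35Space (Sp D) := by
  have hb : TopologicalSpace.IsTopologicalBasis {s : Set (Sp D) | IsClopen s} := by
    refine TopologicalSpace.isTopologicalBasis_of_isOpen_of_nhds (fun u hu => hu.isOpen) ?_
    intro x U hx hU
    rcases sp_cases x with ⟨s, rfl⟩ | ⟨i, rfl⟩
    · obtain ⟨k, hk⟩ := hU s hx
      exact ⟨_, ⟨isClosed_agree k s, isOpen_agree k s⟩, agree_self k s, hk⟩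
    · exact ⟨{mem D i}, ⟨isClosed_mem hD i, isOpen_mem i⟩, rfl, singleton_subset_iff.2 hx⟩
  have h1 : T1Space (Sp D) := ⟨fun x => by
    rcases sp_cases x with ⟨s, rfl⟩ | ⟨i, rfl⟩
    · exact isClosed_fin s
    · exact isClosed_mem hD i⟩
  have h2 := CompletelyRegularSpace.of_isTopologicalBasis_clopens hb
  exact { (inferInstance : T0Space (Sp D)), h2 with }

theorem firstCountable : FirstCountableTopology (Sp D) := by
  refine ⟨fun x => ?_⟩
  rcases sp_cases x with ⟨s, rfl⟩ | ⟨i, rfl⟩
  · exact (nhds_fin s).isCountablyGenerated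
  · rw [(isOpen_singleton_iff_nhds_eq_pure _).1 (isOpen_mem i)]
    infer_instance

theorem isOpen_powers {n : ℕ} {U : Set (Fin n → Sp D)} (hU : IsOpen U) (t : Fin n → Finset ℕ)
    (ht : (fun j => fin D (t j)) ∈ U) : ∃ k, ∀ x, (∀ j, Agree k (t j) (x j)) → x ∈ U := by
  obtain ⟨u, hu, huU⟩ := (isOpen_pi_iff'.1 hU) _ ht
  have h := fun j => (hu j).1 (t j) (hu j).2
  choose k hk using h
  refine ⟨Finset.univ.sup k, fun x hx => huU ?_⟩
  intro j _
  exact hk j (x j) ((hx j).mono (Finset.le_sup (Finset.mem_univ j)))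

theorem lindelof_powers (hg : ∀ g : ℕ → ℕ, {i | ¬ Sparse g (D i)}.Countable) (n : ℕ) :
    LindelofSpace (Fin n → Sp D) := by
  induction n with
  | zero => infer_instance
  | succ n ih =>
    refine ⟨isLindelof_of_countable_subcover fun {κ} U hU hcov => ?_⟩
    have h1 : ∀ t : Fin (n + 1) → Finset ℕ, ∃ u : κ, ∃ k, ∀ x : Fin (n + 1) → Sp D,
        (∀ j, Agree k (t j) (x j)) → x ∈ U u := by
      intro t
      obtain ⟨u, hu⟩ := mem_iUnion.1 (hcov (mem_univ (fun j => fin D (t j))))
      obtain ⟨k, hk⟩ := isOpen_powers (hU u) t hu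
      exact ⟨u, k, hk⟩
    choose u k hk using h1
    let g : ℕ → ℕ := fun m =>
      (Fintype.piFinset (fun _ : Fin (n + 1) => (Finset.range m).powerset)).sup k
    obtain ⟨G, hG⟩ := exists_gap (n + 1) g
    let C : Set ι := {i | ¬ Sparse G (D i)}
    have hC : C.Countable := hg G
    have hmain : ∀ x : Fin (n + 1) → Sp D, (∀ j, ∀ i ∈ C, x j ≠ mem D i) → ∃ t, x ∈ U (u t) := by
      intro x hx
      have hsp : ∀ j, Sparse G (cc (x j)) := by
        intro j
        rcases sp_cases (x j) with ⟨s, hs⟩ | ⟨i, hi⟩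
        · rw [hs, cc_fin]
          exact Sparse.of_finite G s.finite_toSet
        · rw [hi, cc_mem]
          by_contra h
          exact hx j i h hi
      obtain ⟨m, hm⟩ := hG (fun j => cc (x j)) hsp
      classical
      let t : Fin (n + 1) → Finset ℕ := fun j => (Finset.range m).filter (· ∈ cc (x j))
      refine ⟨t, hk t x fun j a ha => ?_⟩
      have hkg : k t ≤ g m := by
        refine Finset.le_sup (f := k) ?_
        rw [Fintype.mem_piFinset]
        intro j
        rw [Finset.mem_powerset]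
        exact Finset.filter_subset _ _
      constructor
      · intro hax
        simp only [t, Finset.mem_filter, Finset.mem_range]
        refine ⟨?_, hax⟩
        by_contra hma
        have := hm j a hax (by omega)
        omega
      · intro hat
        simp only [t, Finset.mem_filter] at hat
        exact hat.2
    let R : Set (Fin (n + 1) → Sp D) := ⋃ j : Fin (n + 1), ⋃ i ∈ C,
      range (fun y : Fin n → Sp D => (Fin.insertNth j (mem D i) y : Fin (n + 1) → Sp D))
    have hR : IsLindelof R := by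
      refine isLindelof_iUnion fun j => hC.isLindelof_biUnion fun i _ => ?_
      refine isLindelof_range ?_
      exact Continuous.finInsertNth j continuous_const continuous_id
    obtain ⟨r, hr, hrR⟩ := hR.elim_countable_subcover U hU ((subset_univ _).trans hcov)
    refine ⟨r ∪ range u, hr.union (countable_range u), fun x _ => ?_⟩
    by_cases hx : ∀ j, ∀ i ∈ C, x j ≠ mem D i
    · obtain ⟨t, ht⟩ := hmain x hx
      exact mem_biUnion (Or.inr ⟨t, rfl⟩) ht
    · push Not at hx
      obtain ⟨j, i, hi, hxi⟩ := hx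
      have hxR : x ∈ R := by
        refine mem_iUnion.2 ⟨j, mem_biUnion hi ⟨j.removeNth x, ?_⟩⟩
        rw [← hxi]
        exact Fin.insertNth_self_removeNth j x
      have := hrR hxR
      rw [mem_iUnion₂] at this
      obtain ⟨a, ha, hxa⟩ := this
      exact mem_biUnion (Or.inl ha) hxa

theorem kSpace_of_firstCountable (X : Type) [TopologicalSpace X] [FirstCountableTopology X] :
    KSpace X := by
  intro F hF
  refine IsSeqClosed.isClosed fun x p hx hp => ?_
  have h := hF _ hp.isCompact_insert_range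
  have h2 := h.mem_of_tendsto hp (Eventually.of_forall fun n =>
    (⟨mem_insert_of_mem _ ⟨n, rfl⟩, hx n⟩ : x n ∈ insert p (range x) ∩ F))
  exact h2.2

theorem countablyTight_of_firstCountable (X : Type) [TopologicalSpace X]
    [FirstCountableTopology X] : CountablyTight X := by
  intro A x hx
  obtain ⟨u, hu, hux⟩ := mem_closure_iff_seq_limit.1 hx
  exact ⟨range u, range_subset_iff.2 hu, countable_range u,
    mem_closure_of_tendsto hux (Eventually.of_forall fun n => ⟨n, rfl⟩)⟩

/-! ### The failure of the Grothendieck property -/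

open Classical in
/-- the function `x ↦ [n ∈ x]` -/
noncomputable def ev (D : ι → Set ℕ) (n : ℕ) : Cp (Sp D) :=
  ⟨fun x => if n ∈ cc x then 1 else 0, by
    refine continuous_def.2 fun V _ => ?_
    intro s hs
    refine ⟨n + 1, fun x hx => ?_⟩
    have := hx n (by omega)
    simp only [mem_preimage, cc_fin, Finset.mem_coe] at hs ⊢
    simpa [this] using hs⟩

open Classical in
/-- the characteristic function of the isolated point `i` -/
noncomputable def de (hD : ∀ i, (D i).Infinite) (i : ι) : Cp (Sp D) :=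
  ⟨fun x => if x = mem D i then 1 else 0, by
    refine continuous_def.2 fun V _ => ?_
    intro s hs
    obtain ⟨k, hk⟩ := (isClosed_mem hD i).isOpen_compl s (fin_ne_mem s i)
    refine ⟨k, fun x hx => ?_⟩
    have := hk x hx
    simp only [mem_preimage, mem_compl_iff, mem_singleton_iff] at hs this ⊢
    simpa [this, fin_ne_mem] using hs⟩

theorem ev_fin (n : ℕ) (s : Finset ℕ) [Decidable (n ∈ s)] :
    (ev D n).1 (fin D s) = if n ∈ s then 1 else 0 := by
  simp only [ev, cc_fin, Finset.mem_coe]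

theorem de_fin (hD : ∀ i, (D i).Infinite) (i : ι) (s : Finset ℕ) :
    (de hD i).1 (fin D s) = 0 := by
  simp [de, fin_ne_mem]

theorem de_mem_self (hD : ∀ i, (D i).Infinite) (i : ι) : (de hD i).1 (mem D i) = 1 := by
  simp [de]

theorem de_mem_ne (hD : ∀ i, (D i).Infinite) {i j : ι} (h : i ≠ j) :
    (de hD j).1 (mem D i) = 0 := by
  have : mem D i ≠ mem D j := fun h' => h (mem_inj h')
  simp [de, this]

theorem ev_ne_de (hD : ∀ i, (D i).Infinite) (n : ℕ) (i : ι) : ev D n ≠ de hD i := by
  classical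
  intro h
  have h1 := ev_fin (D := D) n {n}
  rw [h, de_fin] at h1
  simp at h1

theorem de_injective (hD : ∀ i, (D i).Infinite) : Function.Injective (de hD) := by
  intro i j h
  by_contra hij
  have h1 := de_mem_self hD i
  rw [h, de_mem_ne hD hij] at h1
  norm_num at h1

theorem ev_tendsto (hD : ∀ i, (D i).Infinite) (hAD : ∀ i j, i ≠ j → (D i ∩ D j).Finite) (i : ι) :
    Tendsto (fun n => ev D n) (cofinite ⊓ 𝓟 (D i)) (𝓝 (de hD i)) := by
  classical
  rw [tendsto_subtype_rng, tendsto_pi_nhds]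
  intro x
  refine tendsto_nhds_of_eventually_eq ?_
  rw [eventually_inf_principal]
  rcases sp_cases x with ⟨s, rfl⟩ | ⟨j, rfl⟩
  · filter_upwards [s.finite_toSet.compl_mem_cofinite] with n hn _
    have hn' : n ∉ s := hn
    rw [ev_fin, de_fin, if_neg hn']
  · by_cases hij : i = j
    · subst hij
      refine Eventually.of_forall fun n hn => ?_
      rw [de_mem_self]
      simp [ev, cc_mem, hn]
    · filter_upwards [(hAD i j hij).compl_mem_cofinite] with n hn hni
      rw [de_mem_ne hD (Ne.symm hij)]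
      have : n ∉ D j := fun h => hn ⟨hni, h⟩
      simp [ev, cc_mem, this]

theorem not_grothendieck [Infinite ι] (hD : ∀ i, (D i).Infinite)
    (hAD : ∀ i j, i ≠ j → (D i ∩ D j).Finite)
    (hMAD : ∀ Y : Set ℕ, Y.Infinite → ∃ i, (Y ∩ D i).Infinite) : ¬ Grothendieck (Sp D) := by
  classical
  intro hG
  let Z : Set (Cp (Sp D)) := range (ev D) ∪ range (de hD)
  let E : ℕ → Z := fun n => ⟨ev D n, Or.inl ⟨n, rfl⟩⟩
  let F : ι → Z := fun i => ⟨de hD i, Or.inr ⟨i, rfl⟩⟩
  have hEF : ∀ n i, E n ≠ F i := fun n i h => ev_ne_de hD n i (congrArg Subtype.val h)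
  have hlim : ∀ i, Tendsto E (cofinite ⊓ 𝓟 (D i)) (𝓝 (F i)) := by
    intro i
    rw [tendsto_subtype_rng]
    exact ev_tendsto hD hAD i
  have hacc : ∀ (B : Set Z) (i : ι), ((E ⁻¹' B) ∩ D i).Infinite → AccPt (F i) (𝓟 B) := by
    intro B i hi
    have hne : (cofinite ⊓ 𝓟 ((E ⁻¹' B) ∩ D i)).NeBot :=
      cofinite_inf_principal_neBot_iff.2 hi
    have h1 : Tendsto E (cofinite ⊓ 𝓟 ((E ⁻¹' B) ∩ D i)) (𝓝[≠] (F i) ⊓ 𝓟 B) := by
      refine tendsto_inf.2 ⟨tendsto_nhdsWithin_iff.2 ⟨?_, ?_⟩, ?_⟩
      · exact (hlim i).mono_left (inf_le_inf_left _ (principal_mono.2 inter_subset_right))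
      · exact Eventually.of_forall fun n => hEF n i
      · rw [tendsto_principal, eventually_inf_principal]
        exact Eventually.of_forall fun n hn => hn.1
    exact h1.neBot
  have hcc : CountablyCompactIn (range E) := by
    intro B hB hBi
    have hpre : (E ⁻¹' B).Infinite := by
      intro hfin
      refine hBi ((hfin.image E).subset fun b hb => ?_)
      obtain ⟨n, rfl⟩ := hB hb
      exact ⟨n, hb, rfl⟩
    obtain ⟨i, hi⟩ := hMAD _ hpre
    exact ⟨F i, hacc B i hi⟩
  have hcomp := hG Z (range E) hcc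
  have hFcl : range F ⊆ closure (range E) := by
    rintro _ ⟨i, rfl⟩
    have : AccPt (F i) (𝓟 (range E)) := hacc _ i (by
      have : E ⁻¹' (range E) = Set.univ := by
        ext n; simp
      rw [this, univ_inter]
      exact hD i)
    exact mem_closure_iff_clusterPt.2 this.clusterPt
  have hFinj : Function.Injective F := fun i j h => de_injective hD (congrArg Subtype.val h)
  obtain ⟨y, -, hy⟩ := (infinite_range_of_injective hFinj).exists_accPt_of_subset_isCompact
    hcomp hFcl
  rw [accPt_iff_nhds] at hy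
  have hev : ∀ x : Sp D, Continuous fun z : Z => z.1.1 x := fun x =>
    (continuous_apply x).comp (continuous_subtype_val.comp continuous_subtype_val)
  rcases y with ⟨y, ⟨n, rfl⟩ | ⟨i, rfl⟩⟩
  · have hU : IsOpen {z : Z | (1 / 2 : ℝ) < z.1.1 (fin D {n})} :=
      isOpen_lt continuous_const (hev _)
    obtain ⟨z, ⟨hz1, ⟨j, rfl⟩⟩, -⟩ := hy _ (hU.mem_nhds (by
      simp only [mem_ofPred_eq, ev_fin]
      norm_num))
    simp only [mem_ofPred_eq, F, de_fin] at hz1
    norm_num at hz1
  · have hU : IsOpen {z : Z | (1 / 2 : ℝ) < z.1.1 (mem D i)} :=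
      isOpen_lt continuous_const (hev _)
    obtain ⟨z, ⟨hz1, ⟨j, rfl⟩⟩, hz⟩ := hy _ (hU.mem_nhds (by
      simp only [mem_ofPred_eq, de_mem_self]
      norm_num))
    have hji : i ≠ j := by
      rintro rfl
      exact hz rfl
    simp only [mem_ofPred_eq, F, de_mem_ne hD hji] at hz1
    norm_num at hz1


/-- The continuum hypothesis gives a first countable Tychonoff space, all of whose finite powers
are Lindelöf, which is not Grothendieck. -/
theorem counterexample (hCH : (ℵ₁ : Cardinal.{0}) = 𝔠) :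
    ∃ (X : Type) (_ : TopologicalSpace X), T35Space X ∧ FirstCountableTopology X ∧ KSpace X ∧
      CountablyTight X ∧ (∀ n : ℕ, LindelofSpace (Fin n → X)) ∧ ¬ Grothendieck X := by
  obtain ⟨ι, D, hι, hD, hAD, hMAD, hg⟩ := exists_family hCH
  have h1 : FirstCountableTopology (Sp D) := firstCountable
  exact ⟨Sp D, inferInstance, t35 hD, h1, kSpace_of_firstCountable _,
    countablyTight_of_firstCountable _, fun n => lindelof_powers hg n,
    not_grothendieck hD hAD hMAD⟩

/-- Some forcing notion forces the continuum hypothesis (and preserves `ω₁`) over any ground model;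
and the continuum hypothesis gives a first countable Tychonoff space, all of whose finite powers
are Lindelöf, which is not Grothendieck. So neither question has a positive answer in `ZFC`. -/
theorem result :
    (∃ (P : Type) (_ : Preorder P), Nonempty P ∧
      ∀ p : P, p ∈ OmegaOnePreserved P ∧ p ∈ CHHolds P) ∧
    ((ℵ₁ : Cardinal.{0}) = 𝔠 →
      ∃ (X : Type) (_ : TopologicalSpace X), T35Space X ∧ FirstCountableTopology X ∧ KSpace X ∧
        CountablyTight X ∧ (∀ n : ℕ, LindelofSpace (Fin n → X)) ∧ ¬ Grothendieck X) := by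
  refine ⟨?_, counterexample⟩
  obtain ⟨P, hP, hne, h⟩ := Pool.Agent.Helper292.ForceCH.exists_forcing
  exact ⟨P, hP, hne, fun p => ⟨(h p).1, (h p).2.2⟩⟩

end Pool.Agent.Results.MP_5106fb_gt.CH
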